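import Pool.Agent.H49.Semi.Robust

/-!
If no nonempty subgraph is robust for all numbers in `T`, small vertex sets can be attached to the
edges which meet all cycles of the lengths in question.
-/

namespace Pool.Agent.H49.Semi

open SimpleGraph Pool.Agent.H49.Gap

variable {V : Type*}

theorem exists_assignment [Finite V] (D : ℕ) (T : Finset ℕ) :
    ∀ (N : ℕ) (G : SimpleGraph V), G.edgeSet.ncard = N →
      (∀ G' ≤ G, G' ≠ ⊥ → ∃ x ∈ T, ¬ Robust G' D x) →
      ∃ (U : Sym2 V → Finset V) (t : Sym2 V → ℕ),
        (∀ e ∈ G.edgeSet, t e ∈ T ∧ (U e).card ≤ D ∧ ∀ v ∈ e, v ∉ U e) ∧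
        ∀ x ∈ T, ∀ (v : V) (w : G.Walk v v), w.IsCycle → w.length = x + 2 →
          (∀ e ∈ w.edges, t e = x) → ∃ e ∈ w.edges, ∃ z ∈ w.support, z ∈ U e := by
  classical
  intro N
  induction N using Nat.strong_induction_on with
  | _ N ih =>
  intro G hN hG
  by_cases hbot : G = ⊥
  · subst hbot
    refine ⟨fun _ => ∅, fun _ => 0, ?_, ?_⟩
    · intro e he
      simp at he
    · intro x _ v w hw _ _
      exfalso
      cases w with
      | nil => exact hw.not_nil Walk.Nil.nil
      | cons h _ => exact h
  · obtain ⟨x₀, hx₀, hR⟩ := hG G le_rfl hbot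
    unfold Robust at hR
    push Not at hR
    obtain ⟨a, b, hab, U₀, hU₀, ha, hb, hmeet⟩ := hR
    have hlt : (G.deleteEdges {s(a, b)}).edgeSet.ncard < N := by
      rw [← hN]
      refine Set.ncard_lt_ncard ?_ (Set.toFinite _)
      rw [SimpleGraph.edgeSet_deleteEdges]
      refine ⟨Set.sdiff_subset, fun h => ?_⟩
      have := h (show s(a, b) ∈ G.edgeSet from hab)
      exact this.2 rfl
    obtain ⟨U, t, h1, h2⟩ := ih _ hlt (G.deleteEdges {s(a, b)}) rfl
      (fun G' hG' => hG G' (hG'.trans (SimpleGraph.deleteEdges_le _)))
    refine ⟨Function.update U s(a, b) U₀, Function.update t s(a, b) x₀, ?_, ?_⟩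
    · intro e he
      by_cases hee : e = s(a, b)
      · subst hee
        rw [Function.update_self, Function.update_self]
        refine ⟨hx₀, hU₀, ?_⟩
        intro v hv
        rw [Sym2.mem_iff] at hv
        rcases hv with rfl | rfl
        · exact ha
        · exact hb
      · rw [Function.update_of_ne hee, Function.update_of_ne hee]
        refine h1 e ?_
        rw [SimpleGraph.edgeSet_deleteEdges]
        exact ⟨he, hee⟩
    · intro x hx v w hw hl hall
      by_cases hmem : s(a, b) ∈ w.edges
      · have hxx : x₀ = x := by
          have := hall _ hmem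
          rwa [Function.update_self] at this
        subst hxx
        obtain ⟨p, hp, hpl, hps⟩ := open_cycle hw hmem
        obtain ⟨z, hz, hzU⟩ := hmeet p hp (by omega)
        refine ⟨s(a, b), hmem, z, hps z hz, ?_⟩
        rwa [Function.update_self]
      · have hedges : ∀ e ∈ w.edges, e ∈ (G.deleteEdges {s(a, b)}).edgeSet := by
          intro e he
          rw [SimpleGraph.edgeSet_deleteEdges]
          refine ⟨w.edges_subset_edgeSet he, ?_⟩
          rintro rfl
          exact hmem he
        have hw' := hw.transfer hedges
        obtain ⟨e, he, z, hz, hzU⟩ := h2 x hx v (w.transfer _ hedges) hw'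
          (by rw [Walk.length_transfer, hl]) (by
            intro e he
            rw [Walk.edges_transfer] at he
            have := hall e he
            rwa [Function.update_of_ne (by rintro rfl; exact hmem he)] at this)
        rw [Walk.edges_transfer] at he
        rw [Walk.support_transfer] at hz
        refine ⟨e, he, z, hz, ?_⟩
        rwa [Function.update_of_ne (by rintro rfl; exact hmem he)]

end Pool.Agent.H49.Semi
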