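import Pool.Agent.H49.Semi.Main

/-!
The structure theorem: every finite graph has a large subgraph all of whose edges are robust for all
short cycle lengths of the subgraph.
-/

namespace Pool.Agent.H49.Semi

open SimpleGraph Pool.Agent.H49.Gap

variable {V : Type*}

/-- The largest subgraph of `G` which is robust for all numbers in `T`. -/
def core (G : SimpleGraph V) (D : ℕ) (T : Finset ℕ) : SimpleGraph V :=
  sSup {G' | G' ≤ G ∧ ∀ x ∈ T, Robust G' D x}

theorem core_le (G : SimpleGraph V) (D : ℕ) (T : Finset ℕ) : core G D T ≤ G :=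
  sSup_le fun _ h => h.1

theorem robust_core (G : SimpleGraph V) (D : ℕ) (T : Finset ℕ) {x : ℕ} (hx : x ∈ T) :
    Robust (core G D T) D x := by
  intro a b hab U hU ha hb
  have hab' := hab
  rw [core, SimpleGraph.sSup_adj] at hab'
  obtain ⟨G', hG', hab'⟩ := hab'
  obtain ⟨p, hp, hl, hpU⟩ := hG'.2 x hx a b hab' U hU ha hb
  have hle : G' ≤ core G D T := le_sSup hG'
  refine ⟨p.mapLe hle, (Walk.isPath_mapLe hle).mpr hp, by rw [Walk.length_mapLe, hl], ?_⟩
  intro z hz
  rw [Walk.support_mapLe_eq_support] at hz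
  exact hpU z hz

theorem sdiff_core {G : SimpleGraph V} {D : ℕ} {T : Finset ℕ} :
    ∀ G' ≤ G \ core G D T, G' ≠ ⊥ → ∃ x ∈ T, ¬ Robust G' D x := by
  intro G' hG' hne
  by_contra hcon
  push Not at hcon
  have h1 : G' ≤ core G D T := le_sSup ⟨hG'.trans sdiff_le, hcon⟩
  apply hne
  have h2 : Disjoint (G \ core G D T) (core G D T) := disjoint_sdiff_self_left
  exact le_bot_iff.mp (h2 hG' h1)

theorem structure_aux [Finite V] (N D : ℕ) (hN : 1 ≤ N) :
    ∀ (m : ℕ) (G : SimpleGraph V), (Len G ∩ Set.Iic N).ncard ≤ m →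
      ∃ H ≤ G, G.edgeSet.ncard ≤ 2 * (6 * N * (D + 1) ^ 2) ^ m * H.edgeSet.ncard ∧
        ∀ x ∈ Len H, x ≤ N → Robust H D x := by
  classical
  intro m
  induction m with
  | zero =>
    intro G hm
    refine ⟨G, le_rfl, by rw [pow_zero]; omega, ?_⟩
    intro x hx hxN
    have hfin : (Len G ∩ Set.Iic N).Finite := (Set.finite_Iic N).subset Set.inter_subset_right
    have hempty : Len G ∩ Set.Iic N = ∅ := by
      rwa [Nat.le_zero, Set.ncard_eq_zero hfin] at hm
    have : x ∈ Len G ∩ Set.Iic N := ⟨hx, hxN⟩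
    rw [hempty] at this
    exact absurd this (Set.notMem_empty x)
  | succ m ih =>
    intro G hm
    have hfin : (Len G ∩ Set.Iic N).Finite := (Set.finite_Iic N).subset Set.inter_subset_right
    have hKpos : 1 ≤ 6 * N * (D + 1) ^ 2 := by
      have h1 : 1 ≤ (D + 1) ^ 2 := Nat.one_le_pow _ _ (by omega)
      nlinarith
    by_cases hTe : hfin.toFinset.Nonempty
    · set T := hfin.toFinset with hT
      by_cases hhalf : G.edgeSet.ncard ≤ 2 * (core G D T).edgeSet.ncard
      · refine ⟨core G D T, core_le G D T, hhalf.trans ?_, ?_⟩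
        · refine Nat.mul_le_mul_right _ ?_
          have : 1 ≤ (6 * N * (D + 1) ^ 2) ^ (m + 1) := Nat.one_le_pow _ _ hKpos
          omega
        · intro x hx hxN
          refine robust_core G D T ?_
          rw [hT, Set.Finite.mem_toFinset]
          exact ⟨Len.mono (core_le G D T) hx, hxN⟩
      · push Not at hhalf
        have hsum : G.edgeSet.ncard =
            (core G D T).edgeSet.ncard + (G \ core G D T).edgeSet.ncard := by
          rw [SimpleGraph.edgeSet_sdiff, add_comm,
            Set.ncard_sdiff_add_ncard_of_subset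
              (SimpleGraph.edgeSet_subset_edgeSet.mpr (core_le G D T)) (Set.toFinite _)]
        obtain ⟨x, hx, H₁, hH₁, h1, h2⟩ := one_step' (G \ core G D T) D T hTe sdiff_core
        have hH₁G : H₁ ≤ G := hH₁.trans sdiff_le
        rw [hT, Set.Finite.mem_toFinset] at hx
        have hcard : T.card ≤ N := by
          have hsub : T ⊆ Finset.Icc 1 N := by
            intro z hz
            rw [hT, Set.Finite.mem_toFinset] at hz
            rw [Finset.mem_Icc]
            exact ⟨Len.one_le hz.1, hz.2⟩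
          have := Finset.card_le_card hsub
          rw [Nat.card_Icc] at this
          omega
        obtain ⟨H, hH, h3, h4⟩ := ih H₁ (by
          have hlt : (Len H₁ ∩ Set.Iic N).ncard < (Len G ∩ Set.Iic N).ncard := by
            refine Set.ncard_lt_ncard ?_ hfin
            refine ⟨Set.inter_subset_inter_left _ (Len.mono hH₁G), fun h => ?_⟩
            exact h1 (h hx).1
          omega)
        refine ⟨H, hH.trans hH₁G, ?_, h4⟩
        calc G.edgeSet.ncard ≤ 2 * (G \ core G D T).edgeSet.ncard := by omega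
          _ ≤ 2 * (3 * N * (D + 1) ^ 2 *
              (2 * (6 * N * (D + 1) ^ 2) ^ m * H.edgeSet.ncard)) := by
              refine Nat.mul_le_mul_left 2 (h2.trans ?_)
              gcongr
          _ = 2 * (6 * N * (D + 1) ^ 2) ^ (m + 1) * H.edgeSet.ncard := by ring
    · rw [Finset.not_nonempty_iff_eq_empty, Set.Finite.toFinset_eq_empty] at hTe
      obtain ⟨H, hH, h1, h2⟩ := ih G (by rw [hTe, Set.ncard_empty]; exact Nat.zero_le _)
      refine ⟨H, hH, h1.trans ?_, h2⟩
      refine Nat.mul_le_mul_right _ (Nat.mul_le_mul_left 2 ?_)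
      exact Nat.pow_le_pow_right hKpos (Nat.le_succ m)

/-- The structure theorem. -/
theorem structure_thm [Finite V] (N D : ℕ) (G : SimpleGraph V) :
    ∃ H ≤ G, G.edgeSet.ncard ≤ 2 * (6 * N * (D + 1) ^ 2) ^ N * H.edgeSet.ncard ∧
      ∀ x ∈ Len H, x ≤ N → Robust H D x := by
  rcases Nat.eq_zero_or_pos N with rfl | hN
  · exact ⟨G, le_rfl, by simp; omega, fun x hx hx0 => by
      have := Len.one_le hx
      omega⟩
  · refine structure_aux N D hN N G ?_
    have h1 : Len G ∩ Set.Iic N ⊆ Set.Icc 1 N := fun x hx => ⟨Len.one_le hx.1, hx.2⟩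
    have h2 := Set.ncard_le_ncard h1 (Set.finite_Icc 1 N)
    have h3 : (Set.Icc 1 N).ncard = N := by
      rw [← Finset.coe_Icc, Set.ncard_coe_finset, Nat.card_Icc]
      omega
    omega

end Pool.Agent.H49.Semi
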