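import Pool.Agent.H49.Semi.Step
import Pool.Agent.H49.Gap.Half

/-!
The semigroup theorem.
-/

namespace Pool.Agent.H49.Semi

open SimpleGraph Pool.Agent.H49.Gap

variable {V : Type*}

theorem pow_bound (D : ℕ) : (D + 1) ^ D ≤ 3 * D ^ D := by
  rcases Nat.eq_zero_or_pos D with rfl | hD
  · norm_num
  have hD' : (0 : ℝ) < D := by exact_mod_cast hD
  have h1 : (1 + 1 / (D : ℝ)) ^ D ≤ Real.exp 1 := by
    have h2 : 1 + 1 / (D : ℝ) ≤ Real.exp (1 / (D : ℝ)) := by
      have := Real.add_one_le_exp (1 / (D : ℝ))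
      linarith
    have h3 : (1 + 1 / (D : ℝ)) ^ D ≤ (Real.exp (1 / (D : ℝ))) ^ D :=
      pow_le_pow_left₀ (by positivity) h2 D
    rw [← Real.exp_nat_mul] at h3
    rwa [mul_one_div_cancel hD'.ne'] at h3
  have h4 : Real.exp 1 < 3 := lt_trans Real.exp_one_lt_d9 (by norm_num)
  have h5 : ((D : ℝ) + 1) ^ D = (1 + 1 / (D : ℝ)) ^ D * (D : ℝ) ^ D := by
    rw [← mul_pow]
    congr 1
    field_simp
  have h6 : ((D : ℝ) + 1) ^ D ≤ 3 * (D : ℝ) ^ D := by
    rw [h5]
    exact mul_le_mul_of_nonneg_right (h1.trans h4.le) (by positivity)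
  exact_mod_cast h6

/-- `one_step` with an optimised constant. -/
theorem one_step' [Finite V] (G : SimpleGraph V) (D : ℕ) (T : Finset ℕ) (hT : T.Nonempty)
    (hG : ∀ G' ≤ G, G' ≠ ⊥ → ∃ x ∈ T, ¬ Robust G' D x) :
    ∃ x ∈ T, ∃ H ≤ G, x ∉ Len H ∧
      G.edgeSet.ncard ≤ 3 * T.card * (D + 1) ^ 2 * H.edgeSet.ncard := by
  obtain ⟨x, hx, H, hH, h1, h2⟩ := one_step G D D T hT hG
  refine ⟨x, hx, H, hH, h1, ?_⟩
  have hpos : 0 < D ^ D := Nat.pow_self_pos
  refine Nat.le_of_mul_le_mul_right (h2.trans ?_) hpos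
  calc T.card * (D + 1) ^ (D + 2) * H.edgeSet.ncard
      = (D + 1) ^ D * (T.card * (D + 1) ^ 2 * H.edgeSet.ncard) := by rw [pow_add]; ring
    _ ≤ (3 * D ^ D) * (T.card * (D + 1) ^ 2 * H.edgeSet.ncard) :=
        Nat.mul_le_mul_right _ (pow_bound D)
    _ = _ := by ring

/-- Non-robustness from the absence of a cycle length in the semigroup. -/
theorem not_robust {G : SimpleGraph V} {D x₀ : ℕ} {T : Finset ℕ} (hT : ∀ x ∈ T, x₀ ≤ x) {y : ℕ}
    (hy : y ∈ AddSubmonoid.closure (T : Set ℕ)) (hy1 : 1 ≤ y) (hyD : y ≤ D + x₀)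
    (hG : y ∉ Len G) : ∀ G' ≤ G, G' ≠ ⊥ → ∃ x ∈ T, ¬ Robust G' D x := by
  intro G' hG' hne
  by_contra hcon
  push Not at hcon
  obtain ⟨a, b, hab⟩ := SimpleGraph.ne_bot_iff_exists_adj.mp hne
  obtain ⟨v, w, hw, hl⟩ := exists_cycle (T := (T : Set ℕ)) hT hcon hy hy1 hyD hab
  exact hG (Len.mono hG' ⟨v, w, hw, hl⟩)

/-- Removing the cycles of length `x + 2` from a graph without cycles of length `y + 2`, `x ∣ y`. -/
theorem divisor [Finite V] (G : SimpleGraph V) {x y : ℕ} (hx : 1 ≤ x) (hy : 1 ≤ y) (hxy : x ∣ y)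
    (hG : y ∉ Len G) :
    ∃ H ≤ G, x ∉ Len H ∧ G.edgeSet.ncard ≤ 3 * (y - x + 1) ^ 2 * H.edgeSet.ncard := by
  have hle : x ≤ y := Nat.le_of_dvd hy hxy
  obtain ⟨x', hx', H, hH, h1, h2⟩ := one_step' G (y - x) {x} (Finset.singleton_nonempty x)
    (not_robust (x₀ := x) (fun z hz => by
        rw [Finset.mem_singleton] at hz
        exact hz.ge) (by
      obtain ⟨c, rfl⟩ := hxy
      rw [mul_comm]
      exact AddSubmonoid.nsmul_mem _ (AddSubmonoid.subset_closure (by simp)) c) hy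
      (by omega) hG)
  rw [Finset.mem_singleton] at hx'
  subst hx'
  refine ⟨H, hH, h1, ?_⟩
  rwa [Finset.card_singleton, mul_one] at h2

/-- `P` is closed under addition up to `N`. -/
def ClosedUpTo (P : Set ℕ) (N : ℕ) : Prop := ∀ x ∈ P, ∀ y ∈ P, x + y ≤ N → x + y ∈ P

/-- A set of natural numbers closed under addition up to `N` contains all positive members up to `N`
of the monoid it generates. -/
theorem ClosedUpTo.mem {P : Set ℕ} {N : ℕ} (h : ClosedUpTo P N) {y : ℕ}
    (hy : y ∈ AddSubmonoid.closure P) : 1 ≤ y → y ≤ N → y ∈ P := by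
  induction hy using AddSubmonoid.closure_induction_left with
  | zero => intro h1; omega
  | add_left x hx y hy ih =>
    intro h1 hN
    rcases Nat.eq_zero_or_pos y with rfl | hy0
    · simpa using hx
    · exact h x hx y (ih hy0 (by omega)) hN

/-- The semigroup theorem, inductive form. -/
theorem semigroup_aux [Finite V] (N : ℕ) (hN : 1 ≤ N) :
    ∀ (m : ℕ) (G : SimpleGraph V), (Len G ∩ Set.Iic N).ncard ≤ m →
      ∃ H ≤ G, G.edgeSet.ncard ≤ (6 * N ^ 2) ^ m * H.edgeSet.ncard ∧ ClosedUpTo (Len H) N := by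
  classical
  intro m
  induction m with
  | zero =>
    intro G hm
    refine ⟨G, le_rfl, by simp, ?_⟩
    intro x hx y hy hxy
    have hfin : (Len G ∩ Set.Iic N).Finite := (Set.finite_Iic N).subset Set.inter_subset_right
    have hempty : Len G ∩ Set.Iic N = ∅ := by
      rwa [Nat.le_zero, Set.ncard_eq_zero hfin] at hm
    have : x ∈ Len G ∩ Set.Iic N := ⟨hx, Set.mem_Iic.mpr (by omega)⟩
    rw [hempty] at this
    exact absurd this (Set.notMem_empty x)
  | succ m ih =>
    intro G hm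
    by_cases hgood : ClosedUpTo (Len G) N
    · exact ⟨G, le_rfl, Nat.le_mul_of_pos_left _ (by positivity), hgood⟩
    · unfold ClosedUpTo at hgood
      push Not at hgood
      obtain ⟨x, hx, y, hy, hxy, hz⟩ := hgood
      have hx1 := Len.one_le hx
      have hy1 := Len.one_le hy
      obtain ⟨t, ht, H₁, hH₁, h1, h2⟩ := one_step' G (x + y - 1) {x, y}
        ⟨x, Finset.mem_insert_self _ _⟩
        (not_robust (x₀ := 1) (y := x + y) (fun t ht => by
          rw [Finset.mem_insert, Finset.mem_singleton] at ht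
          rcases ht with rfl | rfl
          · exact hx1
          · exact hy1)
          (AddSubmonoid.add_mem _ (AddSubmonoid.subset_closure (by simp))
            (AddSubmonoid.subset_closure (by simp))) (by omega) (by omega) hz)
      have htG : t ∈ Len G ∩ Set.Iic N := by
        rw [Finset.mem_insert, Finset.mem_singleton] at ht
        rcases ht with rfl | rfl
        · exact ⟨hx, Set.mem_Iic.mpr (by omega)⟩
        · exact ⟨hy, Set.mem_Iic.mpr (by omega)⟩
      obtain ⟨H, hH, h3, h4⟩ := ih H₁ (by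
        have hlt : (Len H₁ ∩ Set.Iic N).ncard < (Len G ∩ Set.Iic N).ncard := by
          refine Set.ncard_lt_ncard ?_ ((Set.finite_Iic N).subset Set.inter_subset_right)
          refine ⟨Set.inter_subset_inter_left _ (Len.mono hH₁), fun h => ?_⟩
          exact h1 (h htG).1
        omega)
      refine ⟨H, hH.trans hH₁, ?_, h4⟩
      have hD : x + y - 1 + 1 = x + y := by omega
      rw [hD] at h2
      have hc2 : ({x, y} : Finset ℕ).card ≤ 2 := Finset.card_le_two
      calc G.edgeSet.ncard ≤ 3 * ({x, y} : Finset ℕ).card * (x + y) ^ 2 * H₁.edgeSet.ncard := h2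
        _ ≤ 3 * 2 * N ^ 2 * ((6 * N ^ 2) ^ m * H.edgeSet.ncard) := by
            gcongr
        _ = (6 * N ^ 2) ^ (m + 1) * H.edgeSet.ncard := by ring

/-- The semigroup theorem: every finite graph has a large subgraph `H` such that the set of the
numbers `ℓ - 2`, `ℓ` a cycle length of `H`, is closed under addition up to `N`. -/
theorem semigroup [Finite V] (N : ℕ) (G : SimpleGraph V) :
    ∃ H ≤ G, G.edgeSet.ncard ≤ (6 * N ^ 2) ^ N * H.edgeSet.ncard ∧ ClosedUpTo (Len H) N := by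
  rcases Nat.eq_zero_or_pos N with rfl | hN
  · exact ⟨G, le_rfl, by simp, fun x hx y _ hxy => by
      have := Len.one_le hx
      omega⟩
  · refine semigroup_aux N hN N G ?_
    have h1 : Len G ∩ Set.Iic N ⊆ Set.Icc 1 N := fun x hx => ⟨Len.one_le hx.1, hx.2⟩
    have h2 := Set.ncard_le_ncard h1 (Set.finite_Icc 1 N)
    have h3 : (Set.Icc 1 N).ncard = N := by
      rw [← Finset.coe_Icc, Set.ncard_coe_finset, Nat.card_Icc]
      omega
    omega

/-- The set of the numbers `x` such that `G` has a cycle of length `2 (x + 1)`. -/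
def HLen (G : SimpleGraph V) : Set ℕ :=
  {x | ∃ (v : V) (w : G.Walk v v), w.IsCycle ∧ w.length = 2 * (x + 1)}

theorem mem_HLen {G : SimpleGraph V} {x : ℕ} : x ∈ HLen G ↔ 2 * x ∈ Len G := by
  unfold HLen Len
  simp only [Set.mem_ofPred_eq, mul_add, mul_one]

/-- The bipartite form. -/
theorem semigroup_bip [Finite V] (N : ℕ) (G : SimpleGraph V) :
    ∃ H ≤ G, (∃ f : V → Bool, ∀ a b, H.Adj a b → f a ≠ f b) ∧
      G.edgeSet.ncard ≤ 2 * (24 * N ^ 2) ^ N * H.edgeSet.ncard ∧ ClosedUpTo (HLen H) N := by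
  obtain ⟨f, hf⟩ := exists_half G
  have hcut : cutGraph G f ≤ G := fun a b h => h.1
  have hev : ∀ x ∈ Len (cutGraph G f), Even x := by
    rintro x ⟨v, w, -, hl⟩
    have := even_of_cut (B := cutGraph G f) (f := f) (fun a b h => h.2) w
    rw [hl] at this
    rw [Nat.even_iff] at this ⊢
    omega
  have key : ∃ H ≤ cutGraph G f, (cutGraph G f).edgeSet.ncard ≤
      (6 * (2 * N) ^ 2) ^ N * H.edgeSet.ncard ∧ ClosedUpTo (Len H) (2 * N) := by
    rcases Nat.eq_zero_or_pos N with rfl | hN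
    · obtain ⟨H, h1, h2, h3⟩ := semigroup 0 (cutGraph G f)
      exact ⟨H, h1, by simpa using h2, h3⟩
    · refine semigroup_aux (2 * N) (by omega) N (cutGraph G f) ?_
      have h1 : Len (cutGraph G f) ∩ Set.Iic (2 * N) ⊆ (fun x => 2 * x) '' Set.Icc 1 N := by
        rintro x ⟨hx, hxN⟩
        obtain ⟨r, hr⟩ := hev x hx
        have := Len.one_le hx
        rw [Set.mem_Iic] at hxN
        exact ⟨r, ⟨by omega, by omega⟩, by
          show 2 * r = x
          omega⟩
      have h2 := Set.ncard_le_ncard h1 ((Set.finite_Icc 1 N).image _)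
      have h3 : ((fun x => 2 * x) '' Set.Icc 1 N).ncard ≤ N := by
        refine (Set.ncard_image_le (Set.finite_Icc 1 N)).trans ?_
        rw [← Finset.coe_Icc, Set.ncard_coe_finset, Nat.card_Icc]
        omega
      omega
  obtain ⟨H, hH, h1, h2⟩ := key
  refine ⟨H, hH.trans hcut, ⟨f, fun a b h => (hH h).2⟩, ?_, ?_⟩
  · calc G.edgeSet.ncard ≤ 2 * (cutGraph G f).edgeSet.ncard := hf
      _ ≤ 2 * ((6 * (2 * N) ^ 2) ^ N * H.edgeSet.ncard) := Nat.mul_le_mul_left 2 h1
      _ = 2 * (24 * N ^ 2) ^ N * H.edgeSet.ncard := by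
          rw [show 6 * (2 * N) ^ 2 = 24 * N ^ 2 by ring]
          ring
  · intro x hx y hy hxy
    rw [mem_HLen] at hx hy ⊢
    rw [mul_add]
    exact h2 _ hx _ hy (by omega)

end Pool.Agent.H49.Semi
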