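import Pool.Agent.H49.Gap.Walks

/-!
Robust edges: if every edge of a graph can be replaced by paths of prescribed lengths avoiding small
sets, then every edge lies on cycles whose lengths are governed by the generated semigroup.
-/

namespace Pool.Agent.H49.Semi

open SimpleGraph Pool.Agent.H49.Gap

variable {V : Type*}

/-- Every edge `ab` of `G` can be replaced by a path of length `x + 1` from `a` to `b` avoiding any
given set of at most `D` other vertices. -/
def Robust (G : SimpleGraph V) (D x : ℕ) : Prop :=
  ∀ a b : V, G.Adj a b → ∀ U : Finset V, U.card ≤ D → a ∉ U → b ∉ U →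
    ∃ p : G.Walk a b, p.IsPath ∧ p.length = x + 1 ∧ ∀ z ∈ p.support, z ∉ U

/-- If all edges are robust for all numbers in `T`, all of them at least `x₀`, every edge `ab` can be
replaced by a path of length `y + 1` for every `y ≤ D + x₀` in the monoid generated by `T`. -/
theorem exists_path {G : SimpleGraph V} {D x₀ : ℕ} {T : Set ℕ} (hT : ∀ x ∈ T, x₀ ≤ x)
    (hR : ∀ x ∈ T, Robust G D x) {y : ℕ} (hy : y ∈ AddSubmonoid.closure T) :
    y ≤ D + x₀ → ∀ a b : V, G.Adj a b → ∃ p : G.Walk a b, p.IsPath ∧ p.length = y + 1 := by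
  classical
  induction hy using AddSubmonoid.closure_induction_left with
  | zero =>
    intro _ a b hab
    refine ⟨Walk.cons hab Walk.nil, ?_, rfl⟩
    rw [Walk.cons_isPath_iff]
    refine ⟨Walk.IsPath.nil, ?_⟩
    rw [Walk.support_nil, List.mem_singleton]
    exact hab.ne
  | add_left x hx y hy ih =>
    intro hxy a b hab
    have hx1 := hT x hx
    obtain ⟨p, hp, hpl⟩ := ih (by omega) a b hab
    cases p with
    | nil => simp at hpl
    | @cons _ c _ hac q =>
      rw [Walk.length_cons] at hpl
      rw [Walk.cons_isPath_iff] at hp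
      obtain ⟨hq, haq⟩ := hp
      have hcard : (q.support.toFinset.erase c).card ≤ D := by
        rw [Finset.card_erase_of_mem (List.mem_toFinset.mpr q.start_mem_support),
          List.toFinset_card_of_nodup hq.support_nodup, Walk.length_support]
        omega
      obtain ⟨r, hr, hrl, hrU⟩ := hR x hx a c hac (q.support.toFinset.erase c) hcard (by
          rw [Finset.mem_erase, List.mem_toFinset]
          exact fun h => haq h.2) (Finset.notMem_erase _ _)
      refine ⟨r.append q, append_isPath hr hq ?_, ?_⟩
      · intro z hz hz'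
        by_contra hne
        exact hrU z hz (Finset.mem_erase.mpr ⟨hne, List.mem_toFinset.mpr hz'⟩)
      · rw [Walk.length_append]
        omega

/-- The cycle version. -/
theorem exists_cycle {G : SimpleGraph V} {D x₀ : ℕ} {T : Set ℕ} (hT : ∀ x ∈ T, x₀ ≤ x)
    (hR : ∀ x ∈ T, Robust G D x) {y : ℕ} (hy : y ∈ AddSubmonoid.closure T) (hy1 : 1 ≤ y)
    (hyD : y ≤ D + x₀) {a b : V} (hab : G.Adj a b) :
    ∃ (v : V) (w : G.Walk v v), w.IsCycle ∧ w.length = y + 2 := by
  obtain ⟨p, hp, hpl⟩ := exists_path hT hR hy hyD a b hab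
  refine ⟨b, Walk.cons hab.symm p, ?_, by rw [Walk.length_cons, hpl]⟩
  rw [Walk.cons_isCycle_iff]
  refine ⟨hp, fun hmem => ?_⟩
  -- a path from `a` to `b` containing the edge `ab` has length one
  obtain ⟨c, d, hcd, p₁, p₂, h1, h2⟩ := split_edge p hmem
  have hp' := hp
  rw [h2] at hp'
  have hn := hp'.support_nodup
  rw [Walk.support_append, Walk.support_cons, List.tail_cons, List.nodup_append'] at hn
  obtain ⟨hn1, hn2, hd⟩ := hn
  rw [Sym2.eq_iff] at h1
  rcases h1 with ⟨rfl, rfl⟩ | ⟨rfl, rfl⟩
  · -- `c = b`, `d = a`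
    exact hd p₁.start_mem_support p₂.start_mem_support
  · -- `c = a`, `d = b`
    have e1 : p₁.length = 0 := by
      have := (Walk.isPath_iff_nil.mp hp'.of_append_left)
      exact Walk.length_eq_zero_iff.mpr this
    have e2 : p₂.length = 0 := by
      have := (Walk.isPath_iff_nil.mp (hp'.of_append_right.of_cons))
      exact Walk.length_eq_zero_iff.mpr this
    have := congrArg Walk.length h2
    rw [Walk.length_append, Walk.length_cons, e1, e2] at this
    omega

/-- Opening a cycle at an edge. -/
theorem open_cycle {G : SimpleGraph V} {v : V} {w : G.Walk v v} (hw : w.IsCycle) {a b : V}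
    (he : s(a, b) ∈ w.edges) :
    ∃ p : G.Walk a b, p.IsPath ∧ p.length + 1 = w.length ∧ (∀ z ∈ p.support, z ∈ w.support) := by
  obtain ⟨c, d, hcd, p₁, p₂, h1, h2⟩ := split_edge w he
  subst h2
  have hn := hw.support_nodup
  rw [Walk.tail_support_append, Walk.support_cons, List.tail_cons] at hn
  have key : (p₂.append p₁).IsPath := by
    rw [Walk.isPath_def, Walk.support_append]
    rw [List.nodup_append_comm]
    exact hn
  have hlen : (p₂.append p₁).length + 1 = (p₁.append (Walk.cons hcd p₂)).length := by
    rw [Walk.length_append, Walk.length_append, Walk.length_cons]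
    omega
  have hsup : ∀ z ∈ (p₂.append p₁).support, z ∈ (p₁.append (Walk.cons hcd p₂)).support := by
    intro z hz
    rw [Walk.mem_support_append_iff] at hz ⊢
    rw [Walk.support_cons, List.mem_cons]
    tauto
  rw [Sym2.eq_iff] at h1
  rcases h1 with ⟨rfl, rfl⟩ | ⟨rfl, rfl⟩
  · refine ⟨(p₂.append p₁).reverse, Walk.IsPath.reverse key, by rw [Walk.length_reverse, hlen], ?_⟩
    intro z hz
    rw [Walk.support_reverse, List.mem_reverse] at hz
    exact hsup z hz
  · exact ⟨p₂.append p₁, key, hlen, hsup⟩

end Pool.Agent.H49.Semi
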