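import Mathlib

/-!
Random sampling of vertices: a set `S` of vertices which contains many edges `e` and misses the small
sets `U e` attached to them.
-/

namespace Pool.Agent.H49.Semi

open SimpleGraph Finset

variable {V : Type*}

/-- The number of functions `V → Fin (m+1)` vanishing at `a`, `b` and nowhere on `U`. -/
theorem card_good [Fintype V] [DecidableEq V] {a b : V} (hab : a ≠ b) (U : Finset V) (ha : a ∉ U)
    (hb : b ∉ U) (m : ℕ) :
    (univ.filter (fun f : V → Fin (m + 1) => (f a = 0 ∧ f b = 0) ∧ ∀ z ∈ U, f z ≠ 0)).card *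
      (m + 1) ^ (2 + U.card) = (m + 1) ^ Fintype.card V * m ^ U.card := by
  have h1 : univ.filter (fun f : V → Fin (m + 1) => (f a = 0 ∧ f b = 0) ∧ ∀ z ∈ U, f z ≠ 0) =
      Fintype.piFinset (fun v => if v ∈ ({a, b} : Finset V) then {0} else
        if v ∈ U then univ.erase (0 : Fin (m + 1)) else univ) := by
    ext f
    rw [Fintype.mem_piFinset, mem_filter]
    constructor
    · rintro ⟨-, ⟨h1, h2⟩, h3⟩ v
      split_ifs with hv hv'
      · rw [mem_insert, mem_singleton] at hv
        rw [mem_singleton]
        rcases hv with rfl | rfl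
        · exact h1
        · exact h2
      · rw [mem_erase]
        exact ⟨h3 v hv', mem_univ _⟩
      · exact mem_univ _
    · intro h
      refine ⟨mem_univ _, ⟨?_, ?_⟩, ?_⟩
      · have := h a
        rwa [if_pos (by simp), mem_singleton] at this
      · have := h b
        rwa [if_pos (by simp), mem_singleton] at this
      · intro z hz
        have := h z
        rw [if_neg (by
          rw [mem_insert, mem_singleton]
          rintro (rfl | rfl)
          · exact ha hz
          · exact hb hz), if_pos hz, mem_erase] at this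
        exact this.1
  have hcard : ∀ v : V, (if v ∈ ({a, b} : Finset V) then ({0} : Finset (Fin (m + 1))) else
        if v ∈ U then univ.erase (0 : Fin (m + 1)) else univ).card *
        (if v ∈ ({a, b} : Finset V) then (m + 1) else if v ∈ U then (m + 1) else 1) =
      (m + 1) * (if v ∈ U then m else 1) := by
    intro v
    by_cases hv : v ∈ ({a, b} : Finset V)
    · have hvU : v ∉ U := by
        rw [mem_insert, mem_singleton] at hv
        rcases hv with rfl | rfl
        · exact ha
        · exact hb
      rw [if_pos hv, if_pos hv, if_neg hvU, card_singleton]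
      ring
    · rw [if_neg hv, if_neg hv]
      by_cases hvU : v ∈ U
      · rw [if_pos hvU, if_pos hvU, if_pos hvU, card_erase_of_mem (mem_univ _), card_univ,
          Fintype.card_fin]
        simp only [Nat.add_sub_cancel]
        ring
      · rw [if_neg hvU, if_neg hvU, if_neg hvU, card_univ, Fintype.card_fin]
  have hprod := Finset.prod_congr (rfl : (univ : Finset V) = univ) (fun v _ => hcard v)
  rw [Finset.prod_mul_distrib, Finset.prod_mul_distrib] at hprod
  rw [h1, Fintype.card_piFinset]
  have hw : ∏ v : V, (if v ∈ ({a, b} : Finset V) then (m + 1) else if v ∈ U then (m + 1) else 1) =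
      (m + 1) ^ (2 + U.card) := by
    have : ∀ v : V, (if v ∈ ({a, b} : Finset V) then (m + 1) else if v ∈ U then (m + 1) else 1) =
        if v ∈ ({a, b} : Finset V) ∪ U then (m + 1) else 1 := by
      intro v
      by_cases h1 : v ∈ ({a, b} : Finset V)
      · rw [if_pos h1, if_pos (mem_union_left _ h1)]
      · by_cases h2 : v ∈ U
        · rw [if_neg h1, if_pos h2, if_pos (mem_union_right _ h2)]
        · rw [if_neg h1, if_neg h2, if_neg (by
            rw [mem_union]
            tauto)]
    rw [Finset.prod_congr rfl (fun v _ => this v), Finset.prod_ite_mem, univ_inter,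
      Finset.prod_const, card_union_of_disjoint, card_pair hab]
    rw [Finset.disjoint_left]
    intro v hv hvU
    rw [mem_insert, mem_singleton] at hv
    rcases hv with rfl | rfl
    · exact ha hvU
    · exact hb hvU
  have hm : ∏ v : V, (if v ∈ U then m else 1) = m ^ U.card := by
    rw [Finset.prod_ite_mem, univ_inter, Finset.prod_const]
  rw [hw, hm, Finset.prod_const, card_univ] at hprod
  exact hprod

theorem card_good_le [Fintype V] [DecidableEq V] {a b : V} (hab : a ≠ b) (U : Finset V)
    (ha : a ∉ U) (hb : b ∉ U) (m : ℕ) {D : ℕ} (hD : U.card ≤ D) :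
    (m + 1) ^ Fintype.card V * m ^ D ≤
    (univ.filter (fun f : V → Fin (m + 1) => (f a = 0 ∧ f b = 0) ∧ ∀ z ∈ U, f z ≠ 0)).card *
      (m + 1) ^ (D + 2) := by
  have h := card_good hab U ha hb m
  obtain ⟨d, rfl⟩ := Nat.exists_eq_add_of_le hD
  calc (m + 1) ^ Fintype.card V * m ^ (U.card + d)
      = ((m + 1) ^ Fintype.card V * m ^ U.card) * m ^ d := by rw [pow_add]; ring
    _ ≤ ((m + 1) ^ Fintype.card V * m ^ U.card) * (m + 1) ^ d :=
        Nat.mul_le_mul_left _ (Nat.pow_le_pow_left (Nat.le_succ m) d)
    _ = _ := by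
        rw [← h]
        rw [show U.card + d + 2 = (2 + U.card) + d by omega, pow_add (m + 1) (2 + U.card) d]
        ring

/-- The set of edges `e` of `G` inside `S` whose attached set `U e` avoids `S`. -/
def goodEdges (G : SimpleGraph V) (U : Sym2 V → Finset V) (S : Set V) : Set (Sym2 V) :=
  {e | e ∈ G.edgeSet ∧ (∀ v ∈ e, v ∈ S) ∧ ∀ z ∈ U e, z ∉ S}

theorem exists_sample [Finite V] (G : SimpleGraph V) (U : Sym2 V → Finset V) (D m : ℕ)
    (hU : ∀ e ∈ G.edgeSet, (U e).card ≤ D ∧ ∀ v ∈ e, v ∉ U e) :
    ∃ S : Set V, G.edgeSet.ncard * m ^ D ≤ (m + 1) ^ (D + 2) * (goodEdges G U S).ncard := by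
  classical
  have := Fintype.ofFinite V
  by_contra hne
  push Not at hne
  have hE : ∀ f : V → Fin (m + 1), (goodEdges G U {v | f v = 0}).ncard =
      (G.edgeFinset.filter (fun e => (∀ v ∈ e, f v = 0) ∧ ∀ z ∈ U e, f z ≠ 0)).card := by
    intro f
    rw [← Set.ncard_coe_finset]
    congr 1
    ext e
    rw [Finset.mem_coe, Finset.mem_filter, SimpleGraph.mem_edgeFinset]
    rfl
  have hG : G.edgeSet.ncard = G.edgeFinset.card := by
    rw [← Set.ncard_coe_finset, SimpleGraph.coe_edgeFinset]
  have hsum : ∑ f : V → Fin (m + 1),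
        (G.edgeFinset.filter (fun e => (∀ v ∈ e, f v = 0) ∧ ∀ z ∈ U e, f z ≠ 0)).card =
      ∑ e ∈ G.edgeFinset,
        (univ.filter (fun f : V → Fin (m + 1) => (∀ v ∈ e, f v = 0) ∧ ∀ z ∈ U e, f z ≠ 0)).card := by
    simp only [Finset.card_filter]
    rw [Finset.sum_comm]
  have hcount : ∀ e ∈ G.edgeFinset, (m + 1) ^ Fintype.card V * m ^ D ≤
      (univ.filter (fun f : V → Fin (m + 1) => (∀ v ∈ e, f v = 0) ∧ ∀ z ∈ U e, f z ≠ 0)).card *
        (m + 1) ^ (D + 2) := by
    intro e
    induction e using Sym2.ind with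
    | _ a b =>
      intro he
      rw [SimpleGraph.mem_edgeFinset] at he
      obtain ⟨h1, h2⟩ := hU _ he
      have hab : a ≠ b := by
        rw [SimpleGraph.mem_edgeSet] at he
        exact he.ne
      have h3 := card_good_le hab (U s(a, b)) (h2 a (Sym2.mem_mk_left a b))
        (h2 b (Sym2.mem_mk_right a b)) m h1
      have h4 : ∀ f : V → Fin (m + 1), (∀ v ∈ s(a, b), f v = 0) ↔ (f a = 0 ∧ f b = 0) := by
        intro f
        constructor
        · intro h
          exact ⟨h a (Sym2.mem_mk_left a b), h b (Sym2.mem_mk_right a b)⟩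
        · rintro ⟨ha, hb⟩ v hv
          rw [Sym2.mem_iff] at hv
          rcases hv with rfl | rfl
          · exact ha
          · exact hb
      simp only [h4]
      exact h3
  have h1 : G.edgeSet.ncard * ((m + 1) ^ Fintype.card V * m ^ D) ≤
      (∑ f : V → Fin (m + 1), (goodEdges G U {v | f v = 0}).ncard) * (m + 1) ^ (D + 2) := by
    rw [Finset.sum_congr rfl (fun f _ => hE f), hsum, Finset.sum_mul, hG, ← smul_eq_mul,
      ← Finset.sum_const]
    exact Finset.sum_le_sum hcount
  have h2 : ∑ f : V → Fin (m + 1), (m + 1) ^ (D + 2) * (goodEdges G U {v | f v = 0}).ncard <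
      ∑ _f : V → Fin (m + 1), G.edgeSet.ncard * m ^ D :=
    Finset.sum_lt_sum_of_nonempty ⟨fun _ => 0, Finset.mem_univ _⟩ (fun f _ => hne {v | f v = 0})
  rw [← Finset.mul_sum, Finset.sum_const, Finset.card_univ, smul_eq_mul, Fintype.card_fun,
    Fintype.card_fin] at h2
  have h3 : (∑ f : V → Fin (m + 1), (goodEdges G U {v | f v = 0}).ncard) * (m + 1) ^ (D + 2) =
      (m + 1) ^ (D + 2) * ∑ f : V → Fin (m + 1), (goodEdges G U {v | f v = 0}).ncard := mul_comm _ _
  have h4 : G.edgeSet.ncard * ((m + 1) ^ Fintype.card V * m ^ D) =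
      (m + 1) ^ Fintype.card V * (G.edgeSet.ncard * m ^ D) := by ring
  rw [h3, h4] at h1
  exact absurd h1 (not_le.mpr h2)

end Pool.Agent.H49.Semi
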