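import Pool.Agent.H49.Semi.Assign
import Pool.Agent.H49.Semi.Sample

/-!
One step: a graph in which no nonempty subgraph is robust for all numbers in `T` has a large subgraph
without cycles of length `x + 2`, for some `x` in `T`. Iteration: the semigroup theorem.
-/

namespace Pool.Agent.H49.Semi

open SimpleGraph Pool.Agent.H49.Gap

variable {V : Type*}

/-- The set of the numbers `x` such that `G` has a cycle of length `x + 2`. -/
def Len (G : SimpleGraph V) : Set ℕ :=
  {x | ∃ (v : V) (w : G.Walk v v), w.IsCycle ∧ w.length = x + 2}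

theorem Len.mono {G H : SimpleGraph V} (h : H ≤ G) : Len H ⊆ Len G := by
  rintro x ⟨v, w, hw, hl⟩
  exact ⟨v, w.mapLe h, (Walk.isCycle_mapLe h).mpr hw, by rw [Walk.length_mapLe, hl]⟩

theorem Len.one_le {G : SimpleGraph V} {x : ℕ} (h : x ∈ Len G) : 1 ≤ x := by
  obtain ⟨v, w, hw, hl⟩ := h
  have := hw.three_le_length
  omega

theorem edgeSet_fromEdgeSet_sub {G : SimpleGraph V} {s : Set (Sym2 V)} (h : s ⊆ G.edgeSet) :
    (SimpleGraph.fromEdgeSet s).edgeSet = s := by
  rw [SimpleGraph.edgeSet_fromEdgeSet]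
  ext e
  constructor
  · exact fun h => h.1
  · exact fun he => ⟨he, G.not_isDiag_of_mem_edgeSet (h he)⟩

theorem one_step [Finite V] (G : SimpleGraph V) (D m : ℕ) (T : Finset ℕ) (hT : T.Nonempty)
    (hG : ∀ G' ≤ G, G' ≠ ⊥ → ∃ x ∈ T, ¬ Robust G' D x) :
    ∃ x ∈ T, ∃ H ≤ G, x ∉ Len H ∧
      G.edgeSet.ncard * m ^ D ≤ T.card * (m + 1) ^ (D + 2) * H.edgeSet.ncard := by
  classical
  obtain ⟨U, t, h1, h2⟩ := exists_assignment D T _ G rfl hG
  -- pigeonhole on the types
  obtain ⟨x, hx, hpig⟩ : ∃ x ∈ T,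
      G.edgeSet.ncard ≤ T.card * ({e | e ∈ G.edgeSet ∧ t e = x} : Set (Sym2 V)).ncard := by
    by_contra hne
    push Not at hne
    have hfin : G.edgeSet.Finite := Set.toFinite _
    have hmaps : ∀ e ∈ hfin.toFinset, t e ∈ T := fun e he => (h1 e (hfin.mem_toFinset.mp he)).1
    have hs := Finset.card_eq_sum_card_fiberwise hmaps
    have hc : ∀ y, ({e | e ∈ G.edgeSet ∧ t e = y} : Set (Sym2 V)).ncard =
        (hfin.toFinset.filter (fun e => t e = y)).card := by
      intro y
      rw [← Set.ncard_coe_finset]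
      congr 1
      ext e
      rw [Finset.mem_coe, Finset.mem_filter, hfin.mem_toFinset]
      rfl
    have hlt : ∑ y ∈ T, T.card * ({e | e ∈ G.edgeSet ∧ t e = y} : Set (Sym2 V)).ncard <
        ∑ _y ∈ T, G.edgeSet.ncard := Finset.sum_lt_sum_of_nonempty hT hne
    rw [← Finset.mul_sum, Finset.sum_const, smul_eq_mul, Finset.sum_congr rfl (fun y _ => hc y),
      ← hs, ← Set.ncard_eq_toFinset_card _ hfin] at hlt
    exact lt_irrefl _ hlt
  set Ex : Set (Sym2 V) := {e | e ∈ G.edgeSet ∧ t e = x} with hEx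
  have hExG : Ex ⊆ G.edgeSet := fun e he => he.1
  have hGx : (SimpleGraph.fromEdgeSet Ex).edgeSet = Ex := edgeSet_fromEdgeSet_sub hExG
  have hGxG : SimpleGraph.fromEdgeSet Ex ≤ G := by
    rw [← SimpleGraph.edgeSet_subset_edgeSet, hGx]
    exact hExG
  obtain ⟨S, hS⟩ := exists_sample (SimpleGraph.fromEdgeSet Ex) U D m (by
    intro e he
    rw [hGx] at he
    exact (h1 e he.1).2)
  have hgood : goodEdges (SimpleGraph.fromEdgeSet Ex) U S ⊆ G.edgeSet := by
    intro e he
    have := he.1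
    rw [hGx] at this
    exact this.1
  have hH : (SimpleGraph.fromEdgeSet (goodEdges (SimpleGraph.fromEdgeSet Ex) U S)).edgeSet =
      goodEdges (SimpleGraph.fromEdgeSet Ex) U S := edgeSet_fromEdgeSet_sub hgood
  have hHG : SimpleGraph.fromEdgeSet (goodEdges (SimpleGraph.fromEdgeSet Ex) U S) ≤ G := by
    rw [← SimpleGraph.edgeSet_subset_edgeSet, hH]
    exact hgood
  refine ⟨x, hx, _, hHG, ?_, ?_⟩
  · rintro ⟨v, w, hw, hl⟩
    have hedge : ∀ e ∈ w.edges, e ∈ goodEdges (SimpleGraph.fromEdgeSet Ex) U S := by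
      intro e he
      have := w.edges_subset_edgeSet he
      rwa [hH] at this
    obtain ⟨e, he, z, hz, hzU⟩ := h2 x hx v (w.mapLe hHG) ((Walk.isCycle_mapLe hHG).mpr hw)
      (by rw [Walk.length_mapLe, hl]) (by
        intro e he
        rw [Walk.edges_mapLe_eq_edges] at he
        have := (hedge e he).1
        rw [hGx] at this
        exact this.2)
    rw [Walk.edges_mapLe_eq_edges] at he
    rw [Walk.support_mapLe_eq_support] at hz
    obtain ⟨g, hg, hzg⟩ := (Walk.mem_support_iff_exists_mem_edges_of_not_nil hw.not_nil).mp hz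
    exact (hedge e he).2.2 z hzU ((hedge g hg).2.1 z hzg)
  · rw [hH]
    rw [hGx] at hS
    calc G.edgeSet.ncard * m ^ D ≤ (T.card * Ex.ncard) * m ^ D := Nat.mul_le_mul_right _ hpig
      _ = T.card * (Ex.ncard * m ^ D) := by ring
      _ ≤ T.card * ((m + 1) ^ (D + 2) *
          (goodEdges (SimpleGraph.fromEdgeSet Ex) U S).ncard) := Nat.mul_le_mul_left _ hS
      _ = _ := by ring

end Pool.Agent.H49.Semi
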